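import Mathlib

open Set Filter Topology MeasureTheory

namespace Pool.Agent.Results.MP_d698c5_an.No

abbrev T : Type := AddCircle (1 : ℝ)

theorem exists_char : ∃ (χ : T →+ ℝ) (τ : T), χ τ = Real.log 2 := by
  have hnot : (√2 : ℝ) ∉ Submodule.span ℚ ({1} : Set ℝ) := by
    rw [Submodule.mem_span_singleton]
    rintro ⟨q, hq⟩
    exact irrational_sqrt_two ⟨q, by simpa using hq⟩
  obtain ⟨f, hf, hker⟩ := Submodule.exists_le_ker_of_notMem hnot
  have hf1 : f 1 = 0 := hker (Submodule.mem_span_singleton_self _)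
  let g : ℝ →+ ℝ :=
    { toFun := fun x => (Real.log 2 / (f √2 : ℝ)) * (f x : ℝ)
      map_zero' := by simp
      map_add' := by intro x y; simp [mul_add] }
  have hg : AddSubgroup.zmultiples (1 : ℝ) ≤ g.ker := by
    rw [AddSubgroup.zmultiples_le]
    simp [g, hf1]
  refine ⟨QuotientAddGroup.lift _ g hg, ((√2 : ℝ) : T), ?_⟩
  have h0 : (f √2 : ℝ) ≠ 0 := by exact_mod_cast hf
  change g √2 = _
  simp only [g, AddMonoidHom.coe_mk, ZeroHom.coe_mk]
  field_simp

noncomputable def χ : T →+ ℝ := exists_char.choose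
noncomputable def τ : T := exists_char.choose_spec.choose
theorem χ_τ : χ τ = Real.log 2 := exists_char.choose_spec.choose_spec

/-- The cylinder. -/
def G : Type := ℝ × T

noncomputable instance : MetricSpace G := inferInstanceAs (MetricSpace (ℝ × T))
instance : LocallyCompactSpace G := inferInstanceAs (LocallyCompactSpace (ℝ × T))
instance : SigmaCompactSpace G := inferInstanceAs (SigmaCompactSpace (ℝ × T))

noncomputable instance : Group G where
  mul a b := (Real.exp (χ b.2) * a.1 + b.1, a.2 + b.2)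
  one := ((0 : ℝ), (0 : T))
  inv a := (-(Real.exp (-χ a.2) * a.1), -a.2)
  mul_assoc a b c := by
    change ((Real.exp (χ c.2) * (Real.exp (χ b.2) * a.1 + b.1) + c.1, a.2 + b.2 + c.2) : ℝ × T) =
      (Real.exp (χ (b.2 + c.2)) * a.1 + (Real.exp (χ c.2) * b.1 + c.1), a.2 + (b.2 + c.2))
    rw [map_add, Real.exp_add, add_assoc a.2]
    congr 1
    ring
  one_mul a := by
    change ((Real.exp (χ a.2) * 0 + a.1, 0 + a.2) : ℝ × T) = (a.1, a.2)
    simp
  mul_one a := by
    change ((Real.exp (χ 0) * a.1 + 0, a.2 + 0) : ℝ × T) = (a.1, a.2)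
    simp
  inv_mul_cancel a := by
    change ((Real.exp (χ a.2) * (-(Real.exp (-χ a.2) * a.1)) + a.1, -a.2 + a.2) : ℝ × T) = (0, 0)
    rw [Real.exp_neg]
    have := (Real.exp_pos (χ a.2)).ne'
    congr 1
    · field_simp; ring
    · simp

theorem mul_fst (a b : G) : (a * b).1 = Real.exp (χ b.2) * a.1 + b.1 := rfl
theorem mul_snd (a b : G) : (a * b).2 = a.2 + b.2 := rfl

/-- strip -/
def strip (a b : ℝ) : Set G := {g | g.1 ∈ Ico a b}

theorem image_strip (a b : ℝ) (g : G) :
    (fun x => x * g) '' strip a b =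
      strip (Real.exp (χ g.2) * a + g.1) (Real.exp (χ g.2) * b + g.1) := by
  have hc := Real.exp_pos (χ g.2)
  ext x
  constructor
  · rintro ⟨y, ⟨h1, h2⟩, rfl⟩
    refine ⟨?_, ?_⟩
    · rw [mul_fst]; nlinarith
    · rw [mul_fst]; nlinarith
  · rintro ⟨h1, h2⟩
    refine ⟨x * g⁻¹, ?_, by simp⟩
    have e : x.1 = Real.exp (χ g.2) * (x * g⁻¹).1 + g.1 := by
      rw [← mul_fst]; simp
    rw [e] at h1 h2
    refine ⟨?_, ?_⟩
    · exact le_of_mul_le_mul_left (by linarith) hc
    · exact lt_of_mul_lt_mul_left (by linarith) hc.le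

theorem result :
    ∃ (G : Type) (_ : Group G) (_ : TopologicalSpace G),
      TopologicalSpace.MetrizableSpace G ∧ LocallyCompactSpace G ∧ SigmaCompactSpace G ∧
      (∀ x : G, Continuous (fun g : G => g * x)) ∧
      ∀ μ : @Measure G (borel G), (∀ K : Set G, IsCompact K → μ K < ⊤) →
        (∀ (g : G) (E : Set G), MeasurableSet[borel G] E → μ ((fun x => x * g) '' E) = μ E) →
        μ = 0 := by
  refine ⟨G, inferInstance, inferInstance, inferInstance, inferInstance, inferInstance, ?_, ?_⟩
  · intro x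
    change Continuous (fun g : ℝ × T => ((Real.exp (χ x.2) * g.1 + x.1, g.2 + x.2) : ℝ × T))
    fun_prop
  · intro μ hfin hinv
    let _ : MeasurableSpace G := borel G
    have : BorelSpace G := ⟨rfl⟩
    have hfst : Continuous (fun g : G => g.1) := continuous_fst
    have hmeas : ∀ a b, MeasurableSet (strip a b) := fun a b =>
      hfst.measurable measurableSet_Ico
    have htr : ∀ y : ℝ, μ (strip y (y + 1)) = μ (strip 0 1) := by
      intro y
      have := hinv ((y, (0 : T)) : ℝ × T) _ (hmeas 0 1)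
      rw [image_strip] at this
      simpa [add_comm] using this
    have hsc : μ (strip 0 2) = μ (strip 0 1) := by
      have := hinv (((0 : ℝ), τ) : ℝ × T) _ (hmeas 0 1)
      rw [image_strip] at this
      simpa [χ_τ, Real.exp_log] using this
    have hun : μ (strip 0 2) = μ (strip 0 1) + μ (strip 1 (1 + 1)) := by
      rw [← measure_union _ (hmeas _ _)]
      · congr 1
        ext g
        simp only [strip, mem_union, mem_ofPred_eq, mem_Ico]
        constructor
        · rintro ⟨h1, h2⟩
          by_cases h : g.1 < 1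
          · exact Or.inl ⟨h1, h⟩
          · exact Or.inr ⟨not_lt.1 h, by linarith⟩
        · rintro (⟨h1, h2⟩ | ⟨h1, h2⟩) <;> constructor <;> linarith
      · rw [Set.disjoint_left]
        rintro g ⟨-, h1⟩ ⟨h2, -⟩
        linarith
    have hlt : μ (strip 0 1) < ⊤ := by
      have hK : IsCompact ((Icc (0 : ℝ) 1 ×ˢ (univ : Set T)) : Set (ℝ × T)) :=
        isCompact_Icc.prod isCompact_univ
      refine (measure_mono ?_).trans_lt (hfin _ hK)
      intro g hg
      exact ⟨Ico_subset_Icc_self hg, trivial⟩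
    have h0 : μ (strip 0 1) = 0 := by
      rw [htr 1, hsc] at hun
      have h2 : μ (strip 0 1) + 0 = μ (strip 0 1) + μ (strip 0 1) := by rw [add_zero]; exact hun
      exact ((ENNReal.add_right_inj hlt.ne).1 h2).symm
    rw [← Measure.measure_univ_eq_zero]
    have hU : (univ : Set G) = ⋃ n : ℤ, strip n (n + 1) := by
      symm
      refine eq_univ_of_forall fun g => mem_iUnion.2 ⟨⌊g.1⌋, Int.floor_le _, Int.lt_floor_add_one _⟩
    rw [hU]
    exact measure_iUnion_null fun n => (htr n).trans h0

end Pool.Agent.Results.MP_d698c5_an.No
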